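import Mathlib

/-! Arcs of the circle `ℝ/ℤ` and a sieve majorant for the event that a multiple hits an arc. -/

namespace Pool.Agent.Lib.MP_a4d326_an

open MeasureTheory Set

abbrev T := UnitAddCircle

instance : IsProbabilityMeasure (volume : Measure T) := ⟨UnitAddCircle.measure_univ⟩

def arc (s t : ℝ) : Set T := ((↑) : ℝ → T) '' Ico s t

lemma measurableSet_arc (s t : ℝ) : MeasurableSet (arc s t) := by
  rcases lt_or_ge s t with h | h
  · have : arc s t = ((↑) : ℝ → T) '' Ioo s t ∪ {(s : T)} := by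
      rw [arc, ← Ioo_insert_left h, image_insert_eq, union_singleton]
    rw [this]
    exact (QuotientAddGroup.isOpenMap_coe _ isOpen_Ioo).measurableSet.union (measurableSet_singleton _)
  · simp [arc, Ico_eq_empty_of_le h]

lemma coe_mem_arc {s t x : ℝ} : (x : T) ∈ arc s t ↔ ∃ j : ℤ, x - j ∈ Ico s t := by
  constructor
  · rintro ⟨y, hy, hxy⟩
    have : ((x - y : ℝ) : T) = 0 := by rw [AddCircle.coe_sub, hxy, sub_self]
    obtain ⟨n, hn⟩ := (AddCircle.coe_eq_zero_iff _).1 this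
    refine ⟨n, ?_⟩
    have : x - n = y := by simp at hn; linarith
    rwa [this]
  · rintro ⟨j, hj⟩
    refine ⟨x - j, hj, ?_⟩
    have : ((j : ℝ) : T) = 0 := (AddCircle.coe_eq_zero_iff _).2 ⟨j, by simp⟩
    simp only [AddCircle.coe_sub, this, sub_zero]

noncomputable def hI (s t : ℝ) : T → ℝ := (arc s t).indicator 1

lemma measurable_hI (s t : ℝ) : Measurable (hI s t) :=
  measurable_one.indicator (measurableSet_arc s t)

lemma hI_nonneg (s t : ℝ) (z : T) : 0 ≤ hI s t z := indicator_nonneg (fun _ _ => zero_le_one) z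

lemma hI_le_one (s t : ℝ) (z : T) : hI s t z ≤ 1 := indicator_le_self' (fun _ _ => zero_le_one) z

lemma integral_hI {s t : ℝ} (h1 : s ≤ t) (h2 : t ≤ s + 1) : ∫ z, hI s t z = t - s := by
  rw [← UnitAddCircle.integral_preimage s, integral_Ioc_eq_integral_Ioo]
  have : ∀ x ∈ Ioo s (s + 1), hI s t (x : T) = (Ioo s t).indicator (1 : ℝ → ℝ) x := by
    intro x hx
    by_cases hxt : x < t
    · rw [hI, indicator_of_mem (show (x : T) ∈ arc s t from ⟨x, ⟨hx.1.le, hxt⟩, rfl⟩),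
        indicator_of_mem (show x ∈ Ioo s t from ⟨hx.1, hxt⟩)]
      rfl
    · rw [hI, indicator_of_notMem, indicator_of_notMem (fun h => hxt h.2)]
      rintro ⟨y, hy, hxy⟩
      have := (AddCircle.coe_eq_coe_iff_of_mem_Ico (p := (1 : ℝ)) (a := s)
        ⟨hy.1, by linarith [hy.2]⟩ ⟨hx.1.le, hx.2⟩).1 hxy
      exact hxt (this ▸ hy.2)
  rw [setIntegral_congr_fun measurableSet_Ioo this, integral_indicator_one measurableSet_Ioo,
    measureReal_restrict_apply measurableSet_Ioo,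
    inter_eq_left.2 (Ioo_subset_Ioo_right h2), Real.volume_real_Ioo_of_le h1]

lemma mp_nsmul {n : ℕ} (hn : n ≠ 0) : MeasurePreserving (fun z : T => n • z) volume volume := by
  have := Measure.measurePreserving_zsmul (volume : Measure T) (n := (n : ℤ)) (by exact_mod_cast hn)
  simpa using this

lemma integral_nsmul {n : ℕ} (hn : n ≠ 0) {f : T → ℝ} (hf : Measurable f) :
    ∫ z, f (n • z) = ∫ z, f z := by
  conv_rhs => rw [← (mp_nsmul hn).map_eq]
  rw [integral_map (mp_nsmul hn).measurable.aemeasurable hf.aestronglyMeasurable]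

lemma bdd_integrable {α : Type*} [MeasurableSpace α] {μ : Measure α} [IsFiniteMeasure μ]
    {f : α → ℝ} (hf : Measurable f) (C : ℝ) (hb : ∀ x, |f x| ≤ C) : Integrable f μ :=
  Integrable.of_bound hf.aestronglyMeasurable C (Filter.Eventually.of_forall hb)

/-- Number of `n ≤ M / e` with `n c` in the arc shrunk by the factor `e`. -/
noncomputable def Z (α β : ℝ) (M e : ℕ) (c : T) : ℝ :=
  ∑ n ∈ Finset.Icc 1 (M / e), hI (-α / e) (β / e) (n • c)

noncomputable def sieve (α β : ℝ) (M : ℕ) (c : T) : ℝ :=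
  Z α β M 1 c - Z α β M 2 c - Z α β M 3 c - Z α β M 5 c + Z α β M 6 c + Z α β M 10 c +
    Z α β M 15 c - Z α β M 30 c

open Classical in
lemma Z_eq (α β r : ℝ) (M : ℕ) {e : ℕ} (he : 0 < e) :
    Z α β M e (r : T) = ∑ n ∈ Finset.Icc 1 M,
      if (∃ j : ℤ, (e : ℤ) ∣ j ∧ e ∣ n ∧ n * r - j ∈ Ico (-α) β) then (1 : ℝ) else 0 := by
  have he' : (0 : ℝ) < e := by exact_mod_cast he
  rw [Z]
  refine Finset.sum_bij_ne_zero (fun k _ _ => e * k) ?_ ?_ ?_ ?_
  · intro k hk _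
    rw [Finset.mem_Icc] at hk ⊢
    refine ⟨Nat.mul_pos he hk.1, ?_⟩
    calc e * k ≤ e * (M / e) := Nat.mul_le_mul_left _ hk.2
      _ ≤ M := Nat.mul_div_le _ _
  · intro a _ _ b _ _ hab
    exact Nat.eq_of_mul_eq_mul_left he hab
  · intro n hn hne
    have hex : ∃ j : ℤ, (e : ℤ) ∣ j ∧ e ∣ n ∧ n * r - j ∈ Ico (-α) β := by
      by_contra h
      exact hne (if_neg h)
    obtain ⟨j, ⟨j', rfl⟩, ⟨k, rfl⟩, hj⟩ := hex
    rw [Finset.mem_Icc] at hn
    refine ⟨k, ?_, ?_, rfl⟩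
    · rw [Finset.mem_Icc]
      refine ⟨Nat.pos_of_mul_pos_left hn.1, ?_⟩
      rw [Nat.le_div_iff_mul_le he, mul_comm]
      exact hn.2
    · have : (k • (r : T)) ∈ arc (-α / e) (β / e) := by
        rw [← AddCircle.coe_nsmul, coe_mem_arc]
        refine ⟨j', ?_⟩
        push_cast at hj
        rw [nsmul_eq_mul, mem_Ico, div_le_iff₀ he', lt_div_iff₀ he']
        constructor <;> nlinarith [hj.1, hj.2]
      rw [hI, indicator_of_mem this]
      simp
  · intro k _ hne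
    have hmem : (k • (r : T)) ∈ arc (-α / e) (β / e) := by
      by_contra h
      exact hne (indicator_of_notMem h _)
    rw [hI, indicator_of_mem hmem, if_pos]
    · rfl
    rw [← AddCircle.coe_nsmul, coe_mem_arc] at hmem
    obtain ⟨j, hj⟩ := hmem
    rw [nsmul_eq_mul, mem_Ico, div_le_iff₀ he', lt_div_iff₀ he'] at hj
    refine ⟨e * j, Dvd.intro _ rfl, Dvd.intro _ rfl, ?_⟩
    push_cast
    constructor <;> nlinarith [hj.1, hj.2]

open Classical in
noncomputable def tm (α β r : ℝ) (e n : ℕ) : ℝ :=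
  if (∃ j : ℤ, (e : ℤ) ∣ j ∧ e ∣ n ∧ n * r - j ∈ Ico (-α) β) then (1 : ℝ) else 0

lemma tm_eq {α β r : ℝ} (h : α + β ≤ 1) {n : ℕ} {j : ℤ} (hj : n * r - j ∈ Ico (-α) β) (e : ℕ) :
    tm α β r e n = if (e : ℤ) ∣ j ∧ (e : ℤ) ∣ (n : ℤ) then 1 else 0 := by
  rw [tm]
  congr 1
  apply propext
  constructor
  · rintro ⟨j', h1, h2, h3⟩
    have : j' = j := by
      have h4 : ((j' - j : ℤ) : ℝ) < 1 := by push_cast; linarith [h3.1, hj.2]
      have h5 : (-1 : ℝ) < ((j' - j : ℤ) : ℝ) := by push_cast; linarith [h3.2, hj.1]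
      have h6 : j' - j < 1 := by exact_mod_cast h4
      have h7 : -1 < j' - j := by exact_mod_cast h5
      omega
    exact ⟨this ▸ h1, by exact_mod_cast h2⟩
  · rintro ⟨h1, h2⟩
    exact ⟨j, h1, by exact_mod_cast h2, hj⟩

noncomputable def st (α β r : ℝ) (n : ℕ) : ℝ :=
  tm α β r 1 n - tm α β r 2 n - tm α β r 3 n - tm α β r 5 n + tm α β r 6 n + tm α β r 10 n +
    tm α β r 15 n - tm α β r 30 n

lemma sieve_eq (α β r : ℝ) (M : ℕ) :
    sieve α β M (r : T) = ∑ n ∈ Finset.Icc 1 M, st α β r n := by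
  rw [sieve, Z_eq _ _ _ _ (by norm_num), Z_eq _ _ _ _ (by norm_num), Z_eq _ _ _ _ (by norm_num),
    Z_eq _ _ _ _ (by norm_num), Z_eq _ _ _ _ (by norm_num), Z_eq _ _ _ _ (by norm_num),
    Z_eq _ _ _ _ (by norm_num), Z_eq _ _ _ _ (by norm_num)]
  simp only [st, tm, Finset.sum_add_distrib, Finset.sum_sub_distrib]

lemma st_eq {α β r : ℝ} (h : α + β ≤ 1) {n : ℕ} {j : ℤ} (hj : n * r - j ∈ Ico (-α) β) :
    st α β r n = if ((2 : ℤ) ∣ j ∧ (2 : ℤ) ∣ (n : ℤ)) ∨ ((3 : ℤ) ∣ j ∧ (3 : ℤ) ∣ (n : ℤ)) ∨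
      ((5 : ℤ) ∣ j ∧ (5 : ℤ) ∣ (n : ℤ)) then 0 else 1 := by
  simp only [st, tm_eq h hj]
  have h6 : ((6 : ℤ) ∣ j ∧ (6 : ℤ) ∣ (n : ℤ)) ↔
      ((2 : ℤ) ∣ j ∧ (2 : ℤ) ∣ (n : ℤ)) ∧ ((3 : ℤ) ∣ j ∧ (3 : ℤ) ∣ (n : ℤ)) := by
    omega
  have h10 : ((10 : ℤ) ∣ j ∧ (10 : ℤ) ∣ (n : ℤ)) ↔
      ((2 : ℤ) ∣ j ∧ (2 : ℤ) ∣ (n : ℤ)) ∧ ((5 : ℤ) ∣ j ∧ (5 : ℤ) ∣ (n : ℤ)) := by
    omega
  have h15 : ((15 : ℤ) ∣ j ∧ (15 : ℤ) ∣ (n : ℤ)) ↔
      ((3 : ℤ) ∣ j ∧ (3 : ℤ) ∣ (n : ℤ)) ∧ ((5 : ℤ) ∣ j ∧ (5 : ℤ) ∣ (n : ℤ)) := by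
    omega
  have h30 : ((30 : ℤ) ∣ j ∧ (30 : ℤ) ∣ (n : ℤ)) ↔
      ((2 : ℤ) ∣ j ∧ (2 : ℤ) ∣ (n : ℤ)) ∧ ((3 : ℤ) ∣ j ∧ (3 : ℤ) ∣ (n : ℤ)) ∧
        ((5 : ℤ) ∣ j ∧ (5 : ℤ) ∣ (n : ℤ)) := by
    omega
  simp only [Nat.cast_one, one_dvd, Nat.cast_ofNat]
  simp only [h6, h10, h15, h30]
  by_cases a : ((2 : ℤ) ∣ j ∧ (2 : ℤ) ∣ (n : ℤ)) <;>
    by_cases b : ((3 : ℤ) ∣ j ∧ (3 : ℤ) ∣ (n : ℤ)) <;>
    by_cases c : ((5 : ℤ) ∣ j ∧ (5 : ℤ) ∣ (n : ℤ)) <;> simp only [a, b, c] <;> norm_num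

lemma st_nonneg {α β r : ℝ} (h : α + β ≤ 1) (n : ℕ) : 0 ≤ st α β r n := by
  by_cases hex : ∃ j : ℤ, n * r - j ∈ Ico (-α) β
  · obtain ⟨j, hj⟩ := hex
    rw [st_eq h hj]
    split_ifs <;> norm_num
  · have : ∀ e, tm α β r e n = 0 := fun e => if_neg fun ⟨j, _, _, hj⟩ => hex ⟨j, hj⟩
    simp [st, this]

lemma sieve_nonneg {α β : ℝ} (h : α + β ≤ 1) (M : ℕ) (c : T) : 0 ≤ sieve α β M c := by
  induction c using QuotientAddGroup.induction_on with
  | H r =>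
    rw [sieve_eq]
    exact Finset.sum_nonneg fun n _ => st_nonneg h n

lemma one_le_sieve {α β : ℝ} (hα : 0 ≤ α) (hβ : 0 ≤ β) (h : α + β ≤ 1) {M : ℕ} {c : T}
    (hex : ∃ n ∈ Finset.Icc 1 M, n • c ∈ arc (-α) β) : 1 ≤ sieve α β M c := by
  classical
  induction c using QuotientAddGroup.induction_on with
  | H r =>
    have hex' : ∃ n : ℕ, 1 ≤ n ∧ ∃ j : ℤ, n * r - j ∈ Ico (-α) β := by
      obtain ⟨n, hn, hm⟩ := hex
      rw [← AddCircle.coe_nsmul, coe_mem_arc, nsmul_eq_mul] at hm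
      exact ⟨n, (Finset.mem_Icc.1 hn).1, hm⟩
    obtain ⟨h1, j, hj⟩ := Nat.find_spec hex'
    have hle : Nat.find hex' ≤ M := by
      obtain ⟨n, hn, hm⟩ := hex
      rw [← AddCircle.coe_nsmul, coe_mem_arc, nsmul_eq_mul] at hm
      exact (Nat.find_min' hex' ⟨(Finset.mem_Icc.1 hn).1, hm⟩).trans (Finset.mem_Icc.1 hn).2
    have key : ∀ p : ℕ, 2 ≤ p → ¬ ((p : ℤ) ∣ j ∧ (p : ℤ) ∣ (Nat.find hex' : ℤ)) := by
      rintro p hp ⟨⟨j', rfl⟩, h2⟩
      obtain ⟨k, hk⟩ : p ∣ Nat.find hex' := by exact_mod_cast h2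
      have hk1 : 1 ≤ k := by
        rcases Nat.eq_zero_or_pos k with h0 | h0
        · rw [h0] at hk; omega
        · exact h0
      refine Nat.find_min hex' (m := k) (by rw [hk]; nlinarith) ⟨hk1, j', ?_⟩
      rw [hk] at hj
      push_cast at hj
      have hp' : (2 : ℝ) ≤ p := by exact_mod_cast hp
      have e1 : (p : ℝ) * k * r - p * j' = p * (k * r - j') := by ring
      rw [e1] at hj
      constructor
      · by_contra hc
        push Not at hc
        nlinarith [hj.1]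
      · by_contra hc
        push Not at hc
        nlinarith [hj.2]
    rw [sieve_eq]
    refine le_trans ?_ (Finset.single_le_sum (fun n _ => st_nonneg h n)
      (Finset.mem_Icc.2 ⟨h1, hle⟩))
    rw [st_eq h hj, if_neg]
    rintro (h2 | h2 | h2)
    · exact key 2 (by norm_num) h2
    · exact key 3 (by norm_num) h2
    · exact key 5 (by norm_num) h2

lemma measurable_Z (α β : ℝ) (M e : ℕ) : Measurable (Z α β M e) := by
  refine Finset.measurable_sum _ fun n _ => (measurable_hI _ _).comp ?_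
  exact (continuous_nsmul n).measurable

lemma abs_Z_le (α β : ℝ) (M e : ℕ) (c : T) : |Z α β M e c| ≤ M := by
  rw [abs_of_nonneg (show 0 ≤ Z α β M e c from Finset.sum_nonneg fun n _ => hI_nonneg _ _ _)]
  calc Z α β M e c ≤ ∑ n ∈ Finset.Icc 1 (M / e), (1 : ℝ) :=
        Finset.sum_le_sum fun n _ => hI_le_one _ _ _
    _ ≤ M := by simpa using Nat.div_le_self M e

lemma integral_Z {α β : ℝ} (hα : 0 ≤ α) (hβ : 0 ≤ β) (h : α + β ≤ 1) (M : ℕ) {e : ℕ} (he : 0 < e) :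
    ∫ c, Z α β M e c = (M / e : ℕ) * ((α + β) / e) := by
  have he' : (1 : ℝ) ≤ e := by exact_mod_cast he
  simp only [Z]
  rw [integral_finsetSum]
  · rw [Finset.sum_congr rfl (g := fun _ => (α + β) / e)]
    · simp
    · intro n hn
      rw [integral_nsmul (by have := (Finset.mem_Icc.1 hn).1; omega) (measurable_hI _ _),
        integral_hI]
      · ring
      · exact div_le_div_of_nonneg_right (by linarith) (by linarith)
      · have : (α + β) / e ≤ 1 := by rw [div_le_one (by linarith)]; linarith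
        have e1 : β / e = -α / e + (α + β) / e := by ring
        linarith
  · intro n _
    exact bdd_integrable ((measurable_hI _ _).comp (continuous_nsmul n).measurable) 1
      fun x => by rw [abs_of_nonneg (hI_nonneg _ _ _)]; exact hI_le_one _ _ _

/-- The mean value of the sieve majorant. -/
noncomputable def mean (l : ℝ) (M : ℕ) : ℝ :=
  (M / 1 : ℕ) * (l / (1 : ℕ)) - (M / 2 : ℕ) * (l / (2 : ℕ)) - (M / 3 : ℕ) * (l / (3 : ℕ)) -
    (M / 5 : ℕ) * (l / (5 : ℕ)) + (M / 6 : ℕ) * (l / (6 : ℕ)) + (M / 10 : ℕ) * (l / (10 : ℕ)) +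
    (M / 15 : ℕ) * (l / (15 : ℕ)) - (M / 30 : ℕ) * (l / (30 : ℕ))

lemma mean_le {l : ℝ} (hl : 0 ≤ l) (M : ℕ) : mean l M ≤ l * (16 / 25 * M + 2) := by
  have up : ∀ e : ℕ, ((M / e : ℕ) : ℝ) ≤ M / e := fun e => Nat.cast_div_le
  have lo : ∀ e : ℕ, 0 < e → (M : ℝ) / e - 1 ≤ ((M / e : ℕ) : ℝ) := by
    intro e he
    have he' : (0 : ℝ) < e := by exact_mod_cast he
    have h1 : M < e * (M / e) + e := by
      have := Nat.div_add_mod M e
      have := Nat.mod_lt M he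
      omega
    have h2 : (M : ℝ) < e * ((M / e : ℕ) : ℝ) + e := by exact_mod_cast h1
    rw [sub_le_iff_le_add, div_le_iff₀ he']
    nlinarith
  have h1 := up 1
  have h6 := up 6
  have h10 := up 10
  have h15 := up 15
  have h2 := lo 2 (by norm_num)
  have h3 := lo 3 (by norm_num)
  have h5 := lo 5 (by norm_num)
  have h30 := lo 30 (by norm_num)
  have : mean l M = l * (((M / 1 : ℕ) : ℝ) - (M / 2 : ℕ) / 2 - (M / 3 : ℕ) / 3 - (M / 5 : ℕ) / 5 +
      (M / 6 : ℕ) / 6 + (M / 10 : ℕ) / 10 + (M / 15 : ℕ) / 15 - (M / 30 : ℕ) / 30) := by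
    rw [mean]; push_cast; ring
  rw [this]
  refine mul_le_mul_of_nonneg_left ?_ hl
  push_cast at *
  linarith

lemma measurable_sieve (α β : ℝ) (M : ℕ) : Measurable (sieve α β M) := by
  have := measurable_Z α β M
  unfold sieve
  fun_prop

lemma integrable_Z (α β : ℝ) (M e : ℕ) : Integrable (Z α β M e) :=
  bdd_integrable (measurable_Z α β M e) M (abs_Z_le α β M e)

lemma integral_sieve {α β : ℝ} (hα : 0 ≤ α) (hβ : 0 ≤ β) (h : α + β ≤ 1) (M : ℕ) :
    ∫ c, sieve α β M c = mean (α + β) M := by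
  have hi := integrable_Z α β M
  simp only [sieve]
  rw [integral_sub, integral_add, integral_add, integral_add, integral_sub, integral_sub,
    integral_sub, mean]
  · simp only [integral_Z hα hβ h M (show 0 < 1 by norm_num),
      integral_Z hα hβ h M (show 0 < 2 by norm_num), integral_Z hα hβ h M (show 0 < 3 by norm_num),
      integral_Z hα hβ h M (show 0 < 5 by norm_num), integral_Z hα hβ h M (show 0 < 6 by norm_num),
      integral_Z hα hβ h M (show 0 < 10 by norm_num),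
      integral_Z hα hβ h M (show 0 < 15 by norm_num),
      integral_Z hα hβ h M (show 0 < 30 by norm_num)]
  all_goals fun_prop

end Pool.Agent.Lib.MP_a4d326_an
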