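import Pool.Agent.Lib.MP_a4d326_an.Var

/-! Lower bound for the measure of the set where the first orbit wins. -/

namespace Pool.Agent.Lib.MP_a4d326_an

open MeasureTheory Set

def F (ε : ℝ) (m : ℕ) : Set (T × T) :=
  {p | (m + 1) • p.1 - p.2 ∈ arc 0 ε ∧ (∀ k ∈ Finset.Icc 2 m, k • p.1 - p.2 ∉ arc 0 ε) ∧
    ∀ n ∈ Finset.Icc 1 (m + 1), n • (p.1 - p.2) ∉ arc 0 ε}

lemma measurableSet_F (ε : ℝ) (m : ℕ) : MeasurableSet (F ε m) := by
  have h1 : ∀ k : ℕ, MeasurableSet {p : T × T | k • p.1 - p.2 ∈ arc 0 ε} := fun k =>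
    (((continuous_nsmul k).measurable.comp measurable_fst).sub measurable_snd)
      (measurableSet_arc 0 ε)
  have h2 : ∀ k : ℕ, MeasurableSet {p : T × T | k • (p.1 - p.2) ∈ arc 0 ε} := fun k =>
    ((continuous_nsmul k).measurable.comp (measurable_fst.sub measurable_snd))
      (measurableSet_arc 0 ε)
  have e : F ε m = {p : T × T | (m + 1) • p.1 - p.2 ∈ arc 0 ε} ∩
      ((⋂ k ∈ Finset.Icc 2 m, {p : T × T | k • p.1 - p.2 ∈ arc 0 ε}ᶜ) ∩
        ⋂ n ∈ Finset.Icc 1 (m + 1), {p : T × T | n • (p.1 - p.2) ∈ arc 0 ε}ᶜ) := by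
    ext p; simp only [F, mem_ofPred_eq, mem_inter_iff, mem_iInter, mem_compl_iff]
  rw [e]
  exact (h1 _).inter ((Finset.measurableSet_biInter _ fun k _ => (h1 k).compl).inter
    (Finset.measurableSet_biInter _ fun k _ => (h2 k).compl))

lemma disjoint_F (ε : ℝ) (M : ℕ) : PairwiseDisjoint (Finset.Icc 1 M : Set ℕ) (F ε) := by
  have key : ∀ m m' : ℕ, 1 ≤ m → m < m' → Disjoint (F ε m) (F ε m') := by
    intro m m' h1 h2
    rw [Set.disjoint_left]
    intro p hp hp'
    exact hp'.2.1 (m + 1) (Finset.mem_Icc.2 ⟨by omega, by omega⟩) hp.1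
  intro m hm m' hm' hne
  rcases lt_or_gt_of_ne hne with h | h
  · exact key m m' (Finset.mem_Icc.1 hm).1 h
  · exact (key m' m (Finset.mem_Icc.1 hm').1 h).symm

def goodSet (α β : ℝ) (M : ℕ) : Set T := {a | ¬ ∃ d ∈ Finset.Icc 1 M, d • (-a) ∈ arc (-α) β}

lemma measurableSet_goodSet (α β : ℝ) (M : ℕ) : MeasurableSet (goodSet α β M) := by
  have e : goodSet α β M = ⋂ d ∈ Finset.Icc 1 M, {a : T | d • (-a) ∈ arc (-α) β}ᶜ := by
    ext a; simp only [goodSet, mem_ofPred_eq, mem_iInter, mem_compl_iff, not_exists, not_and]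
  rw [e]
  exact Finset.measurableSet_biInter _ fun d _ =>
    (((continuous_nsmul d).measurable.comp measurable_neg) (measurableSet_arc _ _)).compl

noncomputable def good (α β : ℝ) (M : ℕ) : T → ℝ := (goodSet α β M).indicator 1

lemma measurable_good (α β : ℝ) (M : ℕ) : Measurable (good α β M) :=
  measurable_one.indicator (measurableSet_goodSet α β M)

lemma good_nonneg (α β : ℝ) (M : ℕ) (a : T) : 0 ≤ good α β M a :=
  indicator_nonneg (fun _ _ => zero_le_one) a

lemma good_le_one (α β : ℝ) (M : ℕ) (a : T) : good α β M a ≤ 1 :=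
  indicator_le_self' (fun _ _ => zero_le_one) a

lemma integrable_good (α β : ℝ) (M : ℕ) : Integrable (good α β M) :=
  bdd_integrable (measurable_good α β M) 1 fun a => by
    rw [abs_of_nonneg (good_nonneg _ _ _ _)]; exact good_le_one _ _ _ _

lemma integrable_sieve (α β : ℝ) (M : ℕ) : Integrable (sieve α β M) := by
  have hi := integrable_Z α β M
  unfold sieve
  fun_prop

lemma integral_good {α β : ℝ} (hα : 0 ≤ α) (hβ : 0 ≤ β) (h : α + β ≤ 1) (M : ℕ) :
    1 - mean (α + β) M ≤ ∫ a, good α β M a := by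
  have h1 : ∫ a, (1 - sieve α β M (-a)) = 1 - mean (α + β) M := by
    rw [integral_sub (integrable_const _) (integrable_sieve α β M).comp_neg,
      integral_neg_eq_self (sieve α β M), integral_sieve hα hβ h]
    simp
  rw [← h1]
  refine integral_mono ((integrable_const _).sub (integrable_sieve α β M).comp_neg)
    (integrable_good _ _ _) fun a => ?_
  by_cases ha : a ∈ goodSet α β M
  · simp only [good, indicator_of_mem ha, Pi.one_apply]
    linarith [sieve_nonneg h M (-a)]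
  · have := one_le_sieve hα hβ h (not_not.1 ha)
    linarith [good_nonneg α β M a]

lemma pointwise {ε η s x : ℝ} (hε : 0 ≤ ε) (hε1 : ε ≤ 1) (hs : 0 ≤ s) (hsε : s + η ≤ ε)
    (hx : x ∈ Ioo s (s + η)) (m : ℕ) (a : T) :
    good (s + η) (ε - s) (m + 1) a * (1 - sieve 0 ε (m + 1) ((x : T) + -(m • a))) ≤
      (F ε m).indicator 1 (a, (m + 1) • a - (x : T)) := by
  have h0 : (0 : ℝ) ≤ (F ε m).indicator 1 (a, (m + 1) • a - (x : T)) :=
    indicator_nonneg (fun _ _ => zero_le_one) _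
  by_cases ha : a ∈ goodSet (s + η) (ε - s) (m + 1)
  swap
  · simpa [good, indicator_of_notMem ha] using h0
  simp only [good, indicator_of_mem ha, Pi.one_apply, one_mul]
  by_cases hY : ∃ n ∈ Finset.Icc 1 (m + 1), n • ((x : T) + -(m • a)) ∈ arc (-0) ε
  · have := one_le_sieve le_rfl hε (by linarith) hY
    linarith
  have hF : (a, (m + 1) • a - (x : T)) ∈ F ε m := by
    refine ⟨?_, fun k hk hmem => ?_, fun n hn hmem => hY ⟨n, hn, ?_⟩⟩
    · simp only [sub_sub_cancel]
      exact ⟨x, ⟨by linarith [hx.1], by linarith [hx.2]⟩, rfl⟩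
    · rw [Finset.mem_Icc] at hk
      refine ha ⟨m + 1 - k, Finset.mem_Icc.2 ⟨by omega, by omega⟩, ?_⟩
      have e : k • a - ((m + 1) • a - (x : T)) = (x : T) + (m + 1 - k) • (-a) := by
        have : (m + 1) • a = k • a + (m + 1 - k) • a := by
          rw [← add_nsmul]; congr 1; omega
        rw [this, neg_nsmul]; abel
      simp only at hmem
      rw [e] at hmem
      generalize (m + 1 - k) • (-a) = z at hmem ⊢
      induction z using QuotientAddGroup.induction_on with
      | H r =>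
        rw [← AddCircle.coe_add, coe_mem_arc] at hmem
        obtain ⟨j, hj⟩ := hmem
        exact coe_mem_arc.2 ⟨j, ⟨by linarith [hj.1, hx.2], by linarith [hj.2, hx.1]⟩⟩
    · have e : a - ((m + 1) • a - (x : T)) = (x : T) + -(m • a) := by
        rw [succ_nsmul]; abel
      simp only at hmem
      rw [e] at hmem
      rwa [neg_zero]
  rw [indicator_of_mem hF, Pi.one_apply]
  linarith [sieve_nonneg (α := 0) (β := ε) (by linarith) (m + 1) ((x : T) + -(m • a))]

lemma measurable_indF (ε : ℝ) (m : ℕ) : Measurable ((F ε m).indicator (1 : T × T → ℝ)) :=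
  measurable_one.indicator (measurableSet_F ε m)

lemma abs_indF (ε : ℝ) (m : ℕ) (p : T × T) : |(F ε m).indicator (1 : T × T → ℝ) p| ≤ 1 := by
  by_cases h : p ∈ F ε m <;> simp [h]

lemma inner_bound {ε : ℝ} (hε : 0 < ε) (hε1 : ε ≤ 1) (m : ℕ) (a : T) :
    ∑ i ∈ Finset.range 64, good (i * (ε / 64) + ε / 64) (ε - i * (ε / 64)) (m + 1) a *
        (ε / 64 - avS ε (m + 1) (i * (ε / 64)) (ε / 64) (-(m • a))) ≤
      ∫ b, (F ε m).indicator (1 : T × T → ℝ) (a, b) := by
  set f : ℝ → ℝ := fun x => (F ε m).indicator (1 : T × T → ℝ) (a, (m + 1) • a - (x : T)) with hf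
  have hfm : Measurable f :=
    (measurable_indF ε m).comp (measurable_const.prodMk (measurable_const.sub measurable_coe))
  have hfi : ∀ s t : ℝ, IntegrableOn f (Ioc s t) := fun s t =>
    bdd_integrable hfm 1 fun x => abs_indF ε m _
  have h1 : ∫ b, (F ε m).indicator (1 : T × T → ℝ) (a, b) = ∫ x in Ioc (0 : ℝ) (0 + 1), f x := by
    rw [← integral_sub_left_eq_self (fun b => (F ε m).indicator (1 : T × T → ℝ) (a, b)) volume
      ((m + 1) • a), ← UnitAddCircle.integral_preimage 0]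
  have h2 : ∑ i ∈ Finset.range 64, ∫ x in ((i : ℕ) * (ε / 64))..(((i + 1 : ℕ) : ℝ) * (ε / 64)), f x =
      ∫ x in (((0 : ℕ) : ℝ) * (ε / 64))..(((64 : ℕ) : ℝ) * (ε / 64)), f x :=
    intervalIntegral.sum_integral_adjacent_intervals (a := fun i : ℕ => (i : ℝ) * (ε / 64))
      fun k _ => (intervalIntegrable_iff_integrableOn_Ioc_of_le (by push_cast; linarith)).2
        (hfi _ _)
  have h3 : ∫ x in (((0 : ℕ) : ℝ) * (ε / 64))..(((64 : ℕ) : ℝ) * (ε / 64)), f x ≤
      ∫ x in Ioc (0 : ℝ) (0 + 1), f x := by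
    rw [intervalIntegral.integral_of_le (by push_cast; linarith)]
    refine setIntegral_mono_set (hfi _ _)
      (Filter.Eventually.of_forall fun x => indicator_nonneg (fun _ _ => zero_le_one) _)
      (Ioc_subset_Ioc (by simp) (by push_cast; linarith)).eventuallyLE
  rw [h1]
  refine le_trans ?_ h3
  rw [← h2]
  refine Finset.sum_le_sum fun i hi => ?_
  have hi' : (i : ℝ) + 1 ≤ 64 := by exact_mod_cast Finset.mem_range.1 hi
  have hi0 : (0 : ℝ) ≤ i := Nat.cast_nonneg i
  have e1 : ((i + 1 : ℕ) : ℝ) * (ε / 64) = i * (ε / 64) + ε / 64 := by push_cast; ring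
  have hS : Integrable (fun x : ℝ => sieve 0 ε (m + 1) ((x : T) + -(m • a)))
      (volume.restrict (Ioc (i * (ε / 64)) (i * (ε / 64) + ε / 64))) := by
    have hz := fun e => integrable_Z_shift ε (m + 1) e (i * (ε / 64)) (ε / 64) (-(m • a))
    unfold sieve
    fun_prop
  have e2 : good (i * (ε / 64) + ε / 64) (ε - i * (ε / 64)) (m + 1) a *
      (ε / 64 - avS ε (m + 1) (i * (ε / 64)) (ε / 64) (-(m • a))) =
      ∫ x in Ioc (i * (ε / 64)) (i * (ε / 64) + ε / 64),
        good (i * (ε / 64) + ε / 64) (ε - i * (ε / 64)) (m + 1) a *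
          (1 - sieve 0 ε (m + 1) ((x : T) + -(m • a))) := by
    rw [integral_const_mul, integral_sub (integrable_const _) hS, avS]
    have : 0 ≤ ε / 64 := by positivity
    simp [this]
  rw [e2, e1, intervalIntegral.integral_of_le (by linarith), integral_Ioc_eq_integral_Ioo,
    integral_Ioc_eq_integral_Ioo]
  refine setIntegral_mono_on ?_ ((hfi _ _).mono_set Ioo_subset_Ioc_self) measurableSet_Ioo
    fun x hx => pointwise hε.le hε1 (by positivity) (by nlinarith) hx m a
  exact IntegrableOn.mono_set (((integrable_const _).sub hS).const_mul _) Ioo_subset_Ioc_self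

lemma vol_F {ε : ℝ} (hε : 0 < ε) (hε1 : ε ≤ 1 / 2) {m : ℕ} (hm : 0 < m) {l : ℝ} (hl : 0 < l)
    (hb : ε / 64 * ε ^ 2 * harm (m + 1) ^ 3 ≤ l ^ 2) (hy : 0 ≤ 1 - 13 / 20 * ε * (m + 5)) :
    ε * (1 - 13 / 20 * ε * (m + 5)) ^ 2 - 512 * l ≤ volume.real (F ε m) := by
  have hη : 0 ≤ ε / 64 := by positivity
  set y := 1 - 13 / 20 * ε * (m + 5) with hydef
  have hm0 : (0 : ℝ) ≤ m := Nat.cast_nonneg m
  have y1 : y ≤ 1 - mean ε (m + 1) := by
    have := mean_le hε.le (m + 1)
    push_cast at this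
    nlinarith
  have y2 : y ≤ 1 - mean (ε + ε / 64) (m + 1) := by
    have := mean_le (l := ε + ε / 64) (by positivity) (m + 1)
    push_cast at this
    nlinarith
  have hI : Integrable ((F ε m).indicator (1 : T × T → ℝ)) (volume.prod volume) :=
    bdd_integrable (measurable_indF ε m) 1 (abs_indF ε m)
  have hmp : MeasurePreserving (fun a : T => -(m • a)) volume volume :=
    (Measure.measurePreserving_neg volume).comp (mp_nsmul hm.ne')
  set dv : ℕ → T → ℝ := fun i θ =>
    |avS ε (m + 1) (i * (ε / 64)) (ε / 64) θ - ε / 64 * mean ε (m + 1)| with hdv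
  have hdi : ∀ i, Integrable (dv i) := fun i =>
    ((integrable_avS ε (m + 1) _ hη).sub (integrable_const _)).abs
  have hdi' : ∀ i, Integrable fun a : T => dv i (-(m • a)) := fun i =>
    (hmp.integrable_comp (hdi i).aestronglyMeasurable).2 (hdi i)
  have hd : ∀ i, ∫ a : T, dv i (-(m • a)) ≤ 8 * l := fun i => by
    have : ∫ a : T, dv i (-(m • a)) = ∫ θ, dv i θ := by
      conv_rhs => rw [← hmp.map_eq]
      rw [integral_map hmp.measurable.aemeasurable (by rw [hmp.map_eq]; exact (hdi i).1)]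
    rw [this]
    exact avS_dev hε.le (by linarith) (m + 1) _ hη hl hb
  calc ε * y ^ 2 - 512 * l = ∑ i ∈ Finset.range 64, (ε / 64 * y * y - 8 * l) := by
        simp; ring
    _ ≤ ∑ i ∈ Finset.range 64, ∫ a : T,
        (ε / 64 * y * good (i * (ε / 64) + ε / 64) (ε - i * (ε / 64)) (m + 1) a -
          dv i (-(m • a))) := by
        refine Finset.sum_le_sum fun i hi => ?_
        have hi' : (i : ℝ) + 1 ≤ 64 := by exact_mod_cast Finset.mem_range.1 hi
        have hi0 : (0 : ℝ) ≤ i := Nat.cast_nonneg i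
        rw [integral_sub ((integrable_good _ _ _).const_mul _) (hdi' i), integral_const_mul]
        have g := integral_good (α := i * (ε / 64) + ε / 64) (β := ε - i * (ε / 64))
          (by positivity) (by nlinarith) (by linarith) (m + 1)
        rw [show i * (ε / 64) + ε / 64 + (ε - i * (ε / 64)) = ε + ε / 64 by ring] at g
        have := mul_le_mul_of_nonneg_left (y2.trans g) (mul_nonneg hη hy)
        linarith [hd i]
    _ = ∫ a : T, ∑ i ∈ Finset.range 64,
        (ε / 64 * y * good (i * (ε / 64) + ε / 64) (ε - i * (ε / 64)) (m + 1) a -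
          dv i (-(m • a))) :=
        (integral_finsetSum _ fun i _ => ((integrable_good _ _ _).const_mul _).sub (hdi' i)).symm
    _ ≤ ∫ a : T, ∫ b, (F ε m).indicator (1 : T × T → ℝ) (a, b) := by
        refine integral_mono (integrable_finsetSum _ fun i _ =>
          ((integrable_good _ _ _).const_mul _).sub (hdi' i)) hI.integral_prod_left fun a => ?_
        refine le_trans (Finset.sum_le_sum fun i _ => ?_) (inner_bound hε (by linarith) m a)
        have g0 := good_nonneg (i * (ε / 64) + ε / 64) (ε - i * (ε / 64)) (m + 1) a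
        have g1 := good_le_one (i * (ε / 64) + ε / 64) (ε - i * (ε / 64)) (m + 1) a
        have d1 : avS ε (m + 1) (i * (ε / 64)) (ε / 64) (-(m • a)) - ε / 64 * mean ε (m + 1) ≤
          dv i (-(m • a)) := le_abs_self _
        have d0 : 0 ≤ dv i (-(m • a)) := abs_nonneg _
        have t1 := mul_le_mul_of_nonneg_left d1 g0
        have t2 := mul_le_mul_of_nonneg_right g1 d0
        have t3 := mul_le_mul_of_nonneg_left y1 (mul_nonneg hη g0)
        nlinarith
    _ = volume.real (F ε m) := by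
        rw [← integral_prod _ hI, integral_indicator_one (measurableSet_F ε m)]
        rfl

lemma harm_mono {a b : ℕ} (h : a ≤ b) : harm a ≤ harm b :=
  Finset.sum_le_sum_of_subset_of_nonneg (Finset.Icc_subset_Icc_right h) fun _ _ _ => by positivity

lemma harm_nonneg (a : ℕ) : 0 ≤ harm a := Finset.sum_nonneg fun _ _ => by positivity

lemma harm_le (a : ℕ) : harm a ≤ 1 + Real.log a := by
  have := harmonic_le_one_add_log a
  rw [harmonic_eq_sum_Icc] at this
  push_cast at this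
  simpa [harm] using this

lemma harm_small {ε : ℝ} (hε : 0 < ε) (hε1 : ε ≤ 1 / 10 ^ 26) {a : ℕ} (ha : 1 ≤ a)
    (ha2 : a * ε ≤ 2) : ε * harm a ^ 3 ≤ 64 / 10 ^ 12 := by
  have ha' : (1 : ℝ) ≤ a := by exact_mod_cast ha
  set z := (a : ℝ) ^ (1 / 6 : ℝ) with hz
  have z1 : 1 ≤ z := Real.one_le_rpow ha' (by norm_num)
  have z6 : z ^ 6 = a := by
    rw [hz, ← Real.rpow_natCast, ← Real.rpow_mul (by linarith)]; norm_num
  have hlog : Real.log a ≤ z / (1 / 6) := Real.log_le_rpow_div (by linarith) (by norm_num)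
  have h7 : harm a ≤ 7 * z := by linarith [harm_le a]
  have h8 : harm a ^ 3 ≤ (7 * z) ^ 3 := pow_le_pow_left₀ (harm_nonneg a) h7 3
  have h9 : (ε * z ^ 3) ^ 2 ≤ (15 / 10 ^ 14) ^ 2 := by
    have : (ε * z ^ 3) ^ 2 = ε * (a * ε) := by rw [← z6]; ring
    rw [this]
    nlinarith
  have h10 : ε * z ^ 3 ≤ 15 / 10 ^ 14 := (abs_le_of_sq_le_sq' h9 (by positivity)).2
  nlinarith

lemma vol_union {ε : ℝ} (hε : 0 < ε) (hε1 : ε ≤ 1 / 10 ^ 26) :
    ∃ M : ℕ, 101 / 200 ≤ volume.real (⋃ m ∈ Finset.Icc 1 M, F ε m) := by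
  set M := ⌊7 / 5 / ε⌋₊ with hM
  have hM1 : (M : ℝ) * ε ≤ 7 / 5 := by
    rw [← le_div_iff₀ hε]; exact Nat.floor_le (by positivity)
  have hM2 : 7 / 5 < ((M : ℝ) + 1) * ε := by
    rw [← div_lt_iff₀ hε]; exact Nat.lt_floor_add_one _
  refine ⟨M, ?_⟩
  rw [measureReal_biUnion_finset (disjoint_F ε M) fun m _ => measurableSet_F ε m]
  set y : ℕ → ℝ := fun m => 1 - 13 / 20 * ε * (m + 5) with hy
  have hH := harm_small hε hε1 (a := M + 1) (by omega) (by push_cast; nlinarith)
  have h1 : ∀ m ∈ Finset.Icc 1 M,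
      (y m ^ 3 - y (m + 1) ^ 3) * (20 / 39) - 512 * (ε / 10 ^ 6) ≤ volume.real (F ε m) := by
    intro m hm
    rw [Finset.mem_Icc] at hm
    have hmM : (m : ℝ) ≤ M := by exact_mod_cast hm.2
    have hme : (m : ℝ) * ε ≤ 7 / 5 := (mul_le_mul_of_nonneg_right hmM hε.le).trans hM1
    have y1 : 0 ≤ y (m + 1) := by simp only [hy]; push_cast; nlinarith
    have y2 : y m = y (m + 1) + 13 / 20 * ε := by simp only [hy]; push_cast; ring
    have y0 : 0 ≤ y m := by rw [y2]; positivity
    refine le_trans ?_ (vol_F hε (by linarith) hm.1 (l := ε / 10 ^ 6) (by positivity) ?_ y0)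
    · have : y m ^ 3 - y (m + 1) ^ 3 ≤ 39 / 20 * ε * y m ^ 2 := by
        rw [y2]
        nlinarith [mul_nonneg (mul_nonneg hε.le hε.le) y1, mul_nonneg (mul_nonneg hε.le hε.le) hε.le]
      change _ ≤ ε * y m ^ 2 - _
      linarith
    · have h2 : harm (m + 1) ^ 3 ≤ harm (M + 1) ^ 3 :=
        pow_le_pow_left₀ (harm_nonneg _) (harm_mono (by omega)) 3
      have h3 : ε * harm (m + 1) ^ 3 ≤ 64 / 10 ^ 12 :=
        (mul_le_mul_of_nonneg_left h2 hε.le).trans hH
      calc ε / 64 * ε ^ 2 * harm (m + 1) ^ 3 = ε ^ 2 / 64 * (ε * harm (m + 1) ^ 3) := by ring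
        _ ≤ ε ^ 2 / 64 * (64 / 10 ^ 12) := by gcongr
        _ = (ε / 10 ^ 6) ^ 2 := by ring
  refine le_trans ?_ (Finset.sum_le_sum h1)
  have tel : ∀ N : ℕ, ∑ m ∈ Finset.Icc 1 N, (y m ^ 3 - y (m + 1) ^ 3) = y 1 ^ 3 - y (N + 1) ^ 3 := by
    intro N
    induction N with
    | zero => simp
    | succ n ih => rw [Finset.sum_Icc_succ_top (by omega), ih]; ring
  rw [Finset.sum_sub_distrib, ← Finset.sum_mul, tel]
  have a1 : 999 / 1000 ≤ y 1 := by simp only [hy]; push_cast; linarith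
  have a2 : y (M + 1) ≤ 9 / 100 := by simp only [hy]; push_cast; nlinarith
  have a3 : 0 ≤ y (M + 1) := by simp only [hy]; push_cast; nlinarith
  have b1 : (999 / 1000 : ℝ) ^ 3 ≤ y 1 ^ 3 := pow_le_pow_left₀ (by norm_num) a1 3
  have b2 : y (M + 1) ^ 3 ≤ (9 / 100) ^ 3 := pow_le_pow_left₀ a3 a2 3
  simp only [Finset.sum_const, Nat.card_Icc, add_tsub_cancel_right, nsmul_eq_mul]
  nlinarith

end Pool.Agent.Lib.MP_a4d326_an
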