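import Pool.Agent.Lib.MP_a4d326_an.Arc

/-! Second moment bound for the local averages of the sieve majorant. -/

namespace Pool.Agent.Lib.MP_a4d326_an

open MeasureTheory Set

lemma measurable_coe : Measurable ((↑) : ℝ → T) := AddCircle.measurable_mk'

lemma periodic_bound {f : T → ℝ} (hf : Measurable f) (h0 : ∀ z, 0 ≤ f z) (h1 : ∀ z, f z ≤ 1)
    {L : ℕ} (hL : 0 < L) (hp : ∀ z, f (z + ((1 / L : ℝ) : T)) = f z) (s : ℝ) {η : ℝ} (hη : 0 ≤ η) :
    ∫ y in Ioc s (s + η), f (y : T) ≤ (η + 1 / L) * ∫ z, f z := by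
  have hL' : (0 : ℝ) < L := by exact_mod_cast hL
  have hper : Function.Periodic (fun y : ℝ => f (y : T)) (1 / L) := fun y => by
    simp only [AddCircle.coe_add, hp]
  have hint : ∀ a b : ℝ, IntervalIntegrable (fun y : ℝ => f (y : T)) volume a b := fun a b => by
    rw [intervalIntegrable_iff]
    have : IsFiniteMeasure (volume.restrict (uIoc a b)) := by
      rw [uIoc]; infer_instance
    exact bdd_integrable (hf.comp measurable_coe) 1 fun x => by
      rw [abs_of_nonneg (h0 _)]; exact h1 _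
  set J := ∫ y in s..s + 1 / L, f (y : T) with hJ
  have hJ0 : 0 ≤ J := intervalIntegral.integral_nonneg (by simp) fun _ _ => h0 _
  have hA : ∫ z, f z = L * J := by
    have := hper.intervalIntegral_add_zsmul_eq (L : ℤ) s hint
    rw [← UnitAddCircle.intervalIntegral_preimage s]
    simp only [zsmul_eq_mul, Int.cast_natCast] at this
    rw [mul_one_div_cancel hL'.ne'] at this
    exact this
  have hB := hper.intervalIntegral_add_zsmul_eq (⌈η * L⌉₊ : ℤ) s hint
  simp only [zsmul_eq_mul, Int.cast_natCast] at hB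
  have hk1 : η * L ≤ ⌈η * L⌉₊ := Nat.le_ceil _
  have hk2 : (⌈η * L⌉₊ : ℝ) < η * L + 1 := Nat.ceil_lt_add_one (by positivity)
  have hle : η ≤ ⌈η * L⌉₊ * (1 / L) := by
    rw [mul_one_div, le_div_iff₀ hL']; exact hk1
  calc ∫ y in Ioc s (s + η), f (y : T) ≤ ∫ y in Ioc s (s + ⌈η * L⌉₊ * (1 / L)), f (y : T) := by
        refine setIntegral_mono_set ?_ (Filter.Eventually.of_forall fun _ => h0 _)
          (Ioc_subset_Ioc_right (by linarith)).eventuallyLE
        exact (intervalIntegrable_iff_integrableOn_Ioc_of_le (by linarith)).1 (hint _ _)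
    _ = ⌈η * L⌉₊ * J := by rw [← hB, intervalIntegral.integral_of_le (by linarith)]
    _ ≤ (η * L + 1) * J := mul_le_mul_of_nonneg_right hk2.le hJ0
    _ = (η + 1 / L) * ∫ z, f z := by rw [hA]; field_simp

lemma nsmul_inv (n : ℕ) (hn : 0 < n) (k : ℤ) : n • (((k : ℝ) / n : ℝ) : T) = 0 := by
  have hn' : (n : ℝ) ≠ 0 := by exact_mod_cast hn.ne'
  rw [← AddCircle.coe_nsmul, AddCircle.coe_eq_zero_iff]
  exact ⟨k, by simp only [zsmul_eq_mul, nsmul_eq_mul]; field_simp⟩

noncomputable def u (h : T → ℝ) (s η : ℝ) (n : ℕ) (θ : T) : ℝ :=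
  ∫ x in Ioc s (s + η), h (n • ((x : T) + θ))

section
variable {h : T → ℝ} (hm : Measurable h) (h0 : ∀ z, 0 ≤ h z) (h1 : ∀ z, h z ≤ 1)
include hm

lemma meas_aux (n : ℕ) : Measurable fun p : ℝ × T => h (n • ((p.1 : T) + p.2)) :=
  hm.comp ((continuous_nsmul n).measurable.comp
    ((measurable_coe.comp measurable_fst).add measurable_snd))

lemma measurable_u (s η : ℝ) (n : ℕ) : Measurable (u h s η n) :=
  ((meas_aux hm n).stronglyMeasurable.integral_prod_left
    (μ := volume.restrict (Ioc s (s + η)))).measurable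

lemma integral_shift {n : ℕ} (hn : 0 < n) (x : T) : ∫ θ, h (n • (x + θ)) = ∫ z, h z := by
  rw [integral_add_left_eq_self (fun θ => h (n • θ)) x, integral_nsmul hn.ne' hm]

include h0 h1

omit hm in
lemma abs_h_le (z : T) : |h z| ≤ 1 := by rw [abs_of_nonneg (h0 _)]; exact h1 _

omit hm h1 in
lemma u_nonneg (s η : ℝ) (n : ℕ) (θ : T) : 0 ≤ u h s η n θ := integral_nonneg fun _ => h0 _

omit hm in
lemma abs_u_le (s : ℝ) {η : ℝ} (hη : 0 ≤ η) (n : ℕ) (θ : T) : |u h s η n θ| ≤ η := by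
  have := norm_integral_le_of_norm_le_const (μ := volume.restrict (Ioc s (s + η)))
    (f := fun x : ℝ => h (n • ((x : T) + θ))) (C := 1)
    (Filter.Eventually.of_forall fun x => abs_h_le h0 h1 _)
  simpa [u, hη] using this

lemma integral_u (s : ℝ) {η : ℝ} (hη : 0 ≤ η) {n : ℕ} (hn : 0 < n) :
    ∫ θ, u h s η n θ = η * ∫ z, h z := by
  simp only [u]
  rw [← integral_integral_swap (f := fun (x : ℝ) (θ : T) => h (n • ((x : T) + θ)))]
  · simp only [integral_shift hm hn]
    simp [hη]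
  · exact bdd_integrable (meas_aux hm n) 1 fun _ => abs_h_le h0 h1 _

lemma corr_inner (s : ℝ) {η : ℝ} (hη : 0 ≤ η) {n n' : ℕ} (hn : 0 < n) (hn' : 0 < n') (x : T) :
    ∫ θ, h (n • (x + θ)) * u h s η n' θ ≤ (η + 1 / (Nat.lcm n n' : ℕ)) * (∫ z, h z) ^ 2 := by
  have hmx : Measurable fun θ : T => h (n • (x + θ)) :=
    hm.comp ((continuous_nsmul n).measurable.comp (measurable_const.add measurable_id))
  have hm2 : Measurable fun p : T × T => h (n • (x + p.2)) * h (n' • (p.1 + p.2)) :=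
    (hmx.comp measurable_snd).mul
      (hm.comp ((continuous_nsmul n').measurable.comp (measurable_fst.add measurable_snd)))
  have hb : ∀ a b : T, |h a * h b| ≤ 1 := fun a b => by
    rw [abs_mul]; exact mul_le_one₀ (abs_h_le h0 h1 _) (abs_nonneg _) (abs_h_le h0 h1 _)
  set C : T → ℝ := fun y => ∫ θ, h (n • (x + θ)) * h (n' • (y + θ)) with hC
  have hCm : Measurable C := (hm2.stronglyMeasurable.integral_prod_right' (ν := volume)).measurable
  have hC0 : ∀ y, 0 ≤ C y := fun y => integral_nonneg fun θ => mul_nonneg (h0 _) (h0 _)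
  have hC1 : ∀ y, C y ≤ 1 := fun y => by
    have := norm_integral_le_of_norm_le_const (μ := (volume : Measure T))
      (f := fun θ => h (n • (x + θ)) * h (n' • (y + θ))) (C := 1)
      (Filter.Eventually.of_forall fun θ => hb _ _)
    simp only [Real.norm_eq_abs, probReal_univ, mul_one] at this
    exact (le_abs_self _).trans this
  have hCint : ∫ y, C y = (∫ z, h z) ^ 2 := by
    simp only [hC]
    rw [integral_integral_swap (f := fun y θ : T => h (n • (x + θ)) * h (n' • (y + θ)))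
      (bdd_integrable hm2 1 fun _ => hb _ _)]
    have : ∀ θ : T, ∫ y, h (n • (x + θ)) * h (n' • (y + θ)) = h (n • (x + θ)) * ∫ z, h z := by
      intro θ
      rw [integral_const_mul]
      simp only [add_comm _ θ, integral_shift hm hn']
    simp only [this]
    rw [integral_mul_const, integral_shift hm hn, sq]
  have hL : 0 < Nat.lcm n n' := Nat.lcm_pos hn hn'
  have hCp : ∀ y, C (y + ((1 / (Nat.lcm n n' : ℕ) : ℝ) : T)) = C y := by
    intro y
    have hb : (1 / (Nat.lcm n n' : ℕ) : ℝ) =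
        ((Nat.gcdA n n' : ℤ) : ℝ) / n' + ((Nat.gcdB n n' : ℤ) : ℝ) / n := by
      have e1 : ((Nat.gcd n n' : ℕ) : ℝ) = n * (Nat.gcdA n n' : ℤ) + n' * (Nat.gcdB n n' : ℤ) := by
        exact_mod_cast Nat.gcd_eq_gcd_ab n n'
      have e2 : ((Nat.gcd n n' : ℕ) : ℝ) * (Nat.lcm n n' : ℕ) = n * n' := by
        exact_mod_cast Nat.gcd_mul_lcm n n'
      have p1 : (0 : ℝ) < n := by exact_mod_cast hn
      have p2 : (0 : ℝ) < n' := by exact_mod_cast hn'
      have p3 : (0 : ℝ) < (Nat.lcm n n' : ℕ) := by exact_mod_cast hL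
      rw [e1] at e2
      field_simp
      linarith
    rw [hb, AddCircle.coe_add]
    simp only [hC]
    rw [← integral_add_right_eq_self (fun θ => h (n • (x + θ)) * h (n' • (y + θ)))
      ((((Nat.gcdB n n' : ℤ) : ℝ) / n : ℝ) : T)]
    refine integral_congr_ae (Filter.Eventually.of_forall fun θ => ?_)
    simp only [nsmul_add, nsmul_inv n hn, nsmul_inv n' hn', add_zero, zero_add]
    congr 2
    abel
  calc ∫ θ, h (n • (x + θ)) * u h s η n' θ = ∫ y in Ioc s (s + η), C (y : T) := by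
        simp only [u, hC, ← integral_const_mul]
        rw [← integral_integral_swap
          (f := fun (y : ℝ) (θ : T) => h (n • (x + θ)) * h (n' • ((y : T) + θ)))]
        exact bdd_integrable ((hmx.comp measurable_snd).mul (meas_aux hm n')) 1 fun _ => hb _ _
    _ ≤ _ := by rw [← hCint]; exact periodic_bound hCm hC0 hC1 hL hCp s hη

lemma corr (s : ℝ) {η : ℝ} (hη : 0 ≤ η) {n n' : ℕ} (hn : 0 < n) (hn' : 0 < n') :
    ∫ θ, u h s η n θ * u h s η n' θ ≤ η * ((η + 1 / (Nat.lcm n n' : ℕ)) * (∫ z, h z) ^ 2) := by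
  have hI : Integrable (Function.uncurry fun (x : ℝ) (θ : T) =>
      h (n • ((x : T) + θ)) * u h s η n' θ) ((volume.restrict (Ioc s (s + η))).prod volume) :=
    bdd_integrable ((meas_aux hm n).mul ((measurable_u hm s η n').comp measurable_snd)) (1 * η)
      fun _ => by
        simp only [Function.uncurry, abs_mul]
        exact mul_le_mul (abs_h_le h0 h1 _) (abs_u_le h0 h1 s hη _ _) (abs_nonneg _) zero_le_one
  calc ∫ θ, u h s η n θ * u h s η n' θ
      = ∫ x in Ioc s (s + η), ∫ θ, h (n • ((x : T) + θ)) * u h s η n' θ := by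
        rw [integral_integral_swap hI]
        simp only [integral_mul_const]
        rfl
    _ ≤ ∫ x in Ioc s (s + η), (η + 1 / (Nat.lcm n n' : ℕ)) * (∫ z, h z) ^ 2 :=
        integral_mono hI.integral_prod_left (integrable_const _)
          fun x => corr_inner hm h0 h1 s hη hn hn' _
    _ = _ := by simp [hη]

lemma cov (s : ℝ) {η : ℝ} (hη : 0 ≤ η) {n n' : ℕ} (hn : 0 < n) (hn' : 0 < n') :
    ∫ θ, (u h s η n θ - η * ∫ z, h z) * (u h s η n' θ - η * ∫ z, h z) ≤
      η * (∫ z, h z) ^ 2 * (1 / (Nat.lcm n n' : ℕ)) := by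
  have i1 : Integrable (u h s η n) := bdd_integrable (measurable_u hm s η n) η (abs_u_le h0 h1 s hη n)
  have i2 : Integrable (u h s η n') :=
    bdd_integrable (measurable_u hm s η n') η (abs_u_le h0 h1 s hη n')
  have i3 : Integrable fun θ => u h s η n θ * u h s η n' θ :=
    bdd_integrable ((measurable_u hm s η n).mul (measurable_u hm s η n')) (η * η) fun θ => by
      rw [abs_mul]
      exact mul_le_mul (abs_u_le h0 h1 s hη _ _) (abs_u_le h0 h1 s hη _ _) (abs_nonneg _) hη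
  set m := η * ∫ z, h z with hmm
  have : ∀ θ, (u h s η n θ - m) * (u h s η n' θ - m) =
      u h s η n θ * u h s η n' θ - m * u h s η n θ - m * u h s η n' θ + m * m := fun θ => by ring
  simp only [this]
  rw [integral_add, integral_sub, integral_sub, integral_const_mul, integral_const_mul,
    integral_u hm h0 h1 s hη hn, integral_u hm h0 h1 s hη hn', integral_const]
  · have := corr hm h0 h1 s hη hn hn'
    simp only [probReal_univ, smul_eq_mul, one_mul, hmm]
    nlinarith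
  all_goals fun_prop

end

/-- The harmonic sum. -/
noncomputable def harm (M : ℕ) : ℝ := ∑ i ∈ Finset.Icc 1 M, (1 / i : ℝ)

lemma sum_le_sum_inj {ι κ : Type*} [DecidableEq κ] {s : Finset ι} {t : Finset κ} {f : ι → ℝ}
    {g : κ → ℝ} (φ : ι → κ) (h1 : Set.InjOn φ s) (h2 : s.image φ ⊆ t) (h3 : ∀ i ∈ s, f i ≤ g (φ i))
    (h4 : ∀ k ∈ t, k ∉ s.image φ → 0 ≤ g k) : ∑ i ∈ s, f i ≤ ∑ k ∈ t, g k :=
  calc ∑ i ∈ s, f i ≤ ∑ i ∈ s, g (φ i) := Finset.sum_le_sum h3
    _ = ∑ k ∈ s.image φ, g k := (Finset.sum_image h1).symm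
    _ ≤ ∑ k ∈ t, g k := Finset.sum_le_sum_of_subset_of_nonneg h2 h4

lemma sum_lcm_le {N M : ℕ} (hNM : N ≤ M) :
    ∑ n ∈ Finset.Icc 1 N, ∑ n' ∈ Finset.Icc 1 N, (1 / (Nat.lcm n n' : ℕ) : ℝ) ≤ harm M ^ 3 := by
  have e : harm M ^ 3 = ∑ p ∈ Finset.Icc 1 M ×ˢ Finset.Icc 1 M ×ˢ Finset.Icc 1 M,
      (1 / (p.1 * p.2.1 * p.2.2 : ℕ) : ℝ) := by
    simp only [harm, pow_succ, pow_zero, one_mul, Finset.sum_product, Finset.sum_mul,
      Finset.mul_sum]
    refine Finset.sum_congr rfl fun a _ => Finset.sum_congr rfl fun b _ =>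
      Finset.sum_congr rfl fun c _ => ?_
    push_cast
    simp only [one_div, mul_inv]
    ring
  rw [e, ← Finset.sum_product']
  refine sum_le_sum_inj
    (fun p : ℕ × ℕ => (Nat.gcd p.1 p.2, p.1 / Nat.gcd p.1 p.2, p.2 / Nat.gcd p.1 p.2)) ?_ ?_ ?_ ?_
  · rintro ⟨a, b⟩ _ ⟨c, d⟩ _ hab
    simp only [Prod.mk.injEq] at hab
    obtain ⟨e1, e2, e3⟩ := hab
    have f1 := Nat.mul_div_cancel' (Nat.gcd_dvd_left a b)
    have f2 := Nat.mul_div_cancel' (Nat.gcd_dvd_right a b)
    have f3 := Nat.mul_div_cancel' (Nat.gcd_dvd_left c d)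
    have f4 := Nat.mul_div_cancel' (Nat.gcd_dvd_right c d)
    rw [e2, e1] at f1
    rw [e3, e1] at f2
    rw [← f1, ← f2, f3, f4]
  · intro q hq
    obtain ⟨⟨a, b⟩, hp, rfl⟩ := Finset.mem_image.1 hq
    simp only [Finset.mem_product, Finset.mem_Icc] at hp ⊢
    have g0 : 0 < Nat.gcd a b := Nat.gcd_pos_of_pos_left _ hp.1.1
    have g1 : Nat.gcd a b ≤ a := Nat.gcd_le_left _ hp.1.1
    have g2 : Nat.gcd a b ≤ b := Nat.gcd_le_right _ hp.2.1
    refine ⟨⟨g0, by omega⟩, ⟨Nat.div_pos g1 g0, (Nat.div_le_self _ _).trans (by omega)⟩,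
      ⟨Nat.div_pos g2 g0, (Nat.div_le_self _ _).trans (by omega)⟩⟩
  · rintro ⟨a, b⟩ hp
    simp only [Finset.mem_product, Finset.mem_Icc] at hp
    have g0 : 0 < Nat.gcd a b := Nat.gcd_pos_of_pos_left _ hp.1.1
    have : Nat.gcd a b * (a / Nat.gcd a b) * (b / Nat.gcd a b) = Nat.lcm a b := by
      rw [Nat.mul_div_cancel' (Nat.gcd_dvd_left a b), Nat.lcm,
        Nat.mul_div_assoc _ (Nat.gcd_dvd_right a b)]
    simp only [this, le_refl]
  · intro p _ _
    positivity

lemma abs_le_of_sq {D : T → ℝ} (hD : Measurable D) {C : ℝ} (hb : ∀ θ, |D θ| ≤ C) {l : ℝ} (hl : 0 < l)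
    (h : ∫ θ, D θ * D θ ≤ l ^ 2) : ∫ θ, |D θ| ≤ l := by
  have i1 : Integrable fun θ => D θ * D θ := bdd_integrable (hD.mul hD) (C * C) fun θ => by
    rw [abs_mul]
    exact mul_le_mul (hb θ) (hb θ) (abs_nonneg _) ((abs_nonneg _).trans (hb θ))
  calc ∫ θ, |D θ| ≤ ∫ θ, (D θ * D θ / (2 * l) + l / 2) := by
        refine integral_mono (bdd_integrable hD C hb).abs (by fun_prop) fun θ => ?_
        simp only
        rw [← abs_mul_abs_self, div_add_div _ _ (by positivity) (by positivity),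
          le_div_iff₀ (by positivity)]
        nlinarith [sq_nonneg (|D θ| - l)]
    _ = (∫ θ, D θ * D θ) / (2 * l) + l / 2 := by
        rw [integral_add (by fun_prop) (by fun_prop), integral_div]; simp
    _ ≤ l ^ 2 / (2 * l) + l / 2 := by gcongr
    _ = l := by field_simp; ring

/-- Local average of `Z`. -/
noncomputable def avZ (ε : ℝ) (M e : ℕ) (s η : ℝ) (θ : T) : ℝ :=
  ∫ x in Ioc s (s + η), Z 0 ε M e ((x : T) + θ)

lemma integrable_Z_shift (ε : ℝ) (M e : ℕ) (s η : ℝ) (θ : T) :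
    Integrable (fun x : ℝ => Z 0 ε M e ((x : T) + θ)) (volume.restrict (Ioc s (s + η))) :=
  bdd_integrable ((measurable_Z _ _ _ _).comp (measurable_coe.add measurable_const)) M
    fun _ => abs_Z_le _ _ _ _ _

lemma avZ_eq (ε : ℝ) (M e : ℕ) (s η : ℝ) (θ : T) :
    avZ ε M e s η θ = ∑ n ∈ Finset.Icc 1 (M / e), u (hI (-0 / e) (ε / e)) s η n θ := by
  simp only [avZ, Z, u]
  rw [integral_finsetSum]
  intro n _
  exact bdd_integrable ((measurable_hI _ _).comp ((continuous_nsmul n).measurable.comp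
    (measurable_coe.add measurable_const))) 1 fun _ => abs_h_le (hI_nonneg _ _) (hI_le_one _ _) _

lemma measurable_avZ (ε : ℝ) (M e : ℕ) (s η : ℝ) : Measurable (avZ ε M e s η) := by
  have : avZ ε M e s η = fun θ => _ := funext (avZ_eq ε M e s η)
  rw [this]
  exact Finset.measurable_sum _ fun n _ => measurable_u (measurable_hI _ _) _ _ _

lemma abs_avZ_le (ε : ℝ) (M e : ℕ) (s : ℝ) {η : ℝ} (hη : 0 ≤ η) (θ : T) :
    |avZ ε M e s η θ| ≤ M * η := by
  have := norm_integral_le_of_norm_le_const (μ := volume.restrict (Ioc s (s + η)))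
    (f := fun x : ℝ => Z 0 ε M e ((x : T) + θ)) (C := M)
    (Filter.Eventually.of_forall fun x => abs_Z_le _ _ _ _ _)
  simpa [avZ, hη] using this

lemma avZ_dev {ε : ℝ} (hε : 0 ≤ ε) (hε1 : ε ≤ 1) (M : ℕ) {e : ℕ} (he : 0 < e) (s : ℝ) {η : ℝ}
    (hη : 0 ≤ η) {l : ℝ} (hl : 0 < l) (hb : η * ε ^ 2 * harm M ^ 3 ≤ l ^ 2) :
    ∫ θ, |avZ ε M e s η θ - η * ((M / e : ℕ) * (ε / e))| ≤ l := by
  have he' : (1 : ℝ) ≤ e := by exact_mod_cast he
  have hδ : ∫ z, hI (-0 / e) (ε / e) z = ε / e := by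
    rw [integral_hI]
    · simp
    · simp only [neg_zero, zero_div]; positivity
    · simp only [neg_zero, zero_div, zero_add]
      rw [div_le_one (by linarith)]; linarith
  refine abs_le_of_sq ((measurable_avZ _ _ _ _ _).sub measurable_const)
    (C := M * η + |η * ((M / e : ℕ) * (ε / e))|)
    (fun θ => (abs_sub _ _).trans (by gcongr; exact abs_avZ_le _ _ _ _ hη _)) hl ?_
  have e1 : ∀ θ, avZ ε M e s η θ - η * ((M / e : ℕ) * (ε / e)) =
      ∑ n ∈ Finset.Icc 1 (M / e),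
        (u (hI (-0 / e) (ε / e)) s η n θ - η * ∫ z, hI (-0 / e) (ε / e) z) := by
    intro θ
    rw [avZ_eq, Finset.sum_sub_distrib, hδ]
    simp
    ring
  simp only [Pi.sub_apply, e1, Finset.sum_mul_sum]
  have hi : ∀ n n' : ℕ, Integrable fun θ =>
      (u (hI (-0 / e) (ε / e)) s η n θ - η * ∫ z, hI (-0 / e) (ε / e) z) *
      (u (hI (-0 / e) (ε / e)) s η n' θ - η * ∫ z, hI (-0 / e) (ε / e) z) := by
    intro n n'
    have b : ∀ k θ, |u (hI (-0 / e) (ε / e)) s η k θ - η * ∫ z, hI (-0 / e) (ε / e) z| ≤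
        η + |η * ∫ z, hI (-0 / e) (ε / e) z| := fun k θ => (abs_sub _ _).trans
      (by gcongr; exact abs_u_le (hI_nonneg _ _) (hI_le_one _ _) _ hη _ _)
    refine bdd_integrable (((measurable_u (measurable_hI _ _) _ _ _).sub measurable_const).mul
      ((measurable_u (measurable_hI _ _) _ _ _).sub measurable_const))
      ((η + |η * ∫ z, hI (-0 / e) (ε / e) z|) * (η + |η * ∫ z, hI (-0 / e) (ε / e) z|)) fun θ => ?_
    rw [abs_mul]
    exact mul_le_mul (b _ _) (b _ _) (abs_nonneg _) ((abs_nonneg _).trans (b n θ))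
  rw [integral_finsetSum _ fun n _ => integrable_finsetSum _ fun n' _ => hi n n']
  calc _ ≤ ∑ n ∈ Finset.Icc 1 (M / e), ∑ n' ∈ Finset.Icc 1 (M / e),
        η * ε ^ 2 * (1 / (Nat.lcm n n' : ℕ) : ℝ) := by
        refine Finset.sum_le_sum fun n hn => ?_
        rw [integral_finsetSum _ fun n' _ => hi n n']
        refine Finset.sum_le_sum fun n' hn' => ?_
        refine (cov (measurable_hI _ _) (hI_nonneg _ _) (hI_le_one _ _) s hη
          (Finset.mem_Icc.1 hn).1 (Finset.mem_Icc.1 hn').1).trans ?_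
        rw [hδ]
        have : ε / e ≤ ε := div_le_self hε he'
        have : 0 ≤ ε / e := by positivity
        gcongr
    _ = η * ε ^ 2 * ∑ n ∈ Finset.Icc 1 (M / e), ∑ n' ∈ Finset.Icc 1 (M / e),
        (1 / (Nat.lcm n n' : ℕ) : ℝ) := by simp only [Finset.mul_sum]
    _ ≤ η * ε ^ 2 * harm M ^ 3 := by
        gcongr
        exact sum_lcm_le (Nat.div_le_self _ _)
    _ ≤ l ^ 2 := hb

/-- Local average of the sieve majorant. -/
noncomputable def avS (ε : ℝ) (M : ℕ) (s η : ℝ) (θ : T) : ℝ :=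
  ∫ x in Ioc s (s + η), sieve 0 ε M ((x : T) + θ)

lemma avS_eq (ε : ℝ) (M : ℕ) (s η : ℝ) (θ : T) :
    avS ε M s η θ = avZ ε M 1 s η θ - avZ ε M 2 s η θ - avZ ε M 3 s η θ - avZ ε M 5 s η θ +
      avZ ε M 6 s η θ + avZ ε M 10 s η θ + avZ ε M 15 s η θ - avZ ε M 30 s η θ := by
  have hi := fun e => integrable_Z_shift ε M e s η θ
  simp only [avS, sieve, avZ]
  rw [integral_sub, integral_add, integral_add, integral_add, integral_sub, integral_sub,
    integral_sub]
  all_goals fun_prop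

lemma measurable_avS (ε : ℝ) (M : ℕ) (s η : ℝ) : Measurable (avS ε M s η) := by
  have : avS ε M s η = fun θ => _ := funext (avS_eq ε M s η)
  rw [this]
  have := fun e => measurable_avZ ε M e s η
  fun_prop

lemma integrable_avZ (ε : ℝ) (M e : ℕ) (s : ℝ) {η : ℝ} (hη : 0 ≤ η) :
    Integrable (avZ ε M e s η) :=
  bdd_integrable (measurable_avZ _ _ _ _ _) _ (abs_avZ_le ε M e s hη)

lemma integrable_avS (ε : ℝ) (M : ℕ) (s : ℝ) {η : ℝ} (hη : 0 ≤ η) :
    Integrable (avS ε M s η) := by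
  have : avS ε M s η = fun θ => _ := funext (avS_eq ε M s η)
  rw [this]
  have := fun e => integrable_avZ ε M e s hη
  fun_prop

lemma avS_dev {ε : ℝ} (hε : 0 ≤ ε) (hε1 : ε ≤ 1) (M : ℕ) (s : ℝ) {η : ℝ}
    (hη : 0 ≤ η) {l : ℝ} (hl : 0 < l) (hb : η * ε ^ 2 * harm M ^ 3 ≤ l ^ 2) :
    ∫ θ, |avS ε M s η θ - η * mean ε M| ≤ 8 * l := by
  set d : ℕ → T → ℝ := fun e θ => |avZ ε M e s η θ - η * ((M / e : ℕ) * (ε / e))| with hd
  have hi : ∀ e, Integrable (d e) := fun e =>
    ((integrable_avZ ε M e s hη).sub (integrable_const _)).abs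
  have hb' : ∀ e, 0 < e → ∫ θ, d e θ ≤ l := fun e he => avZ_dev hε hε1 M he s hη hl hb
  calc ∫ θ, |avS ε M s η θ - η * mean ε M|
      ≤ ∫ θ, (d 1 θ + d 2 θ + d 3 θ + d 5 θ + d 6 θ + d 10 θ + d 15 θ + d 30 θ) := by
        refine integral_mono ((integrable_avS ε M s hη).sub (integrable_const _)).abs
          (by fun_prop) fun θ => ?_
        simp only [hd, avS_eq, mean]
        have a := fun e : ℕ => le_abs_self (avZ ε M e s η θ - η * ((M / e : ℕ) * (ε / e)))
        have b := fun e : ℕ => neg_abs_le (avZ ε M e s η θ - η * ((M / e : ℕ) * (ε / e)))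
        rw [abs_le]
        constructor <;>
          linarith [a 1, a 2, a 3, a 5, a 6, a 10, a 15, a 30, b 1, b 2, b 3, b 5, b 6, b 10, b 15,
            b 30]
    _ ≤ 8 * l := by
        rw [integral_add, integral_add, integral_add, integral_add, integral_add, integral_add,
          integral_add]
        · linarith [hb' 1 (by norm_num), hb' 2 (by norm_num), hb' 3 (by norm_num),
            hb' 5 (by norm_num), hb' 6 (by norm_num), hb' 10 (by norm_num), hb' 15 (by norm_num),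
            hb' 30 (by norm_num)]
        all_goals fun_prop

end Pool.Agent.Lib.MP_a4d326_an
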